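import Pool.Agent.Helper82.SP.GoalsB

/-!
# Project SP: B17
-/

set_option autoImplicit false

namespace Pool.Agent.Helper78.SP

open Matrix Real Filter Topology
open Pool.Agent.Helper82.SP
open Pool.Agent.Helper26.LU (V M3 SO3 nrm sph proj Bm Rot crossM nrm_sq nrm_nonneg nrm_sph
  nrm_pos proj_sph proj_self nrm_proj norm_le_nrm mem_SO3 SO3_mul dot_mulVec mulVec_sph Bm_SO3
  Bm_mulVec Bm_self nrm_mulVec)

theorem Bm_contAt {p : V} (hp : p ∈ sph) : ContinuousAt (fun q : V => Bm p q) p := by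
  have hp1 : p ⬝ᵥ p = 1 := hp
  have h1 : ContinuousAt (fun q : V => (1 + p ⬝ᵥ q)⁻¹) p := by
    apply ContinuousAt.inv₀
    · exact (by fun_prop : Continuous fun q : V => 1 + p ⬝ᵥ q).continuousAt
    · show 1 + p ⬝ᵥ p ≠ 0
      rw [hp1]; norm_num
  have h2 : Continuous fun q : V => crossM (crossProduct p q) := by
    have : ∀ i j, Continuous fun q : V => crossM (crossProduct p q) i j := by
      intro i j
      fin_cases i <;> fin_cases j <;> simp [crossM, cross_apply] <;> fun_prop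
    exact continuous_matrix this
  unfold Bm
  exact (continuousAt_const.add h2.continuousAt).add (h1.smul (h2.matrix_mul h2).continuousAt)

theorem one_i (K : Set V) (c d : V) (U : Set M3) (R0 : M3) (hd : d ≠ 0) (hU : IsOpen U)
    (h0 : R0 ∈ U) (hR0 : R0 ∈ SO3) (hK : ∀ R ∈ U, R ∈ SO3 → c + R *ᵥ d ∈ frontier K) :
    ∃ ε > 0, ∀ y : V, y ⬝ᵥ y = d ⬝ᵥ d →
      (y - R0 *ᵥ d) ⬝ᵥ (y - R0 *ᵥ d) < ε → c + y ∈ frontier K := by
  have hr : 0 < nrm d := nrm_pos hd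
  have hy0 : R0 *ᵥ d ≠ 0 := by
    intro h
    have := nrm_mulVec hR0 d
    rw [h] at this
    simp [nrm] at this
    have h2 := hr
    unfold nrm at h2
    rw [← this] at h2
    simp at h2
  set p : V := (nrm d)⁻¹ • (R0 *ᵥ d) with hp
  have hpp : p = proj (R0 *ᵥ d) := by
    rw [hp, proj, nrm_mulVec hR0]
  have hps : p ∈ sph := by
    rw [hpp]
    exact proj_sph hy0
  have hp1 : p ⬝ᵥ p = 1 := hps
  have c1 : ContinuousAt (fun y : V => (nrm d)⁻¹ • y) (R0 *ᵥ d) :=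
    (continuous_const_smul _).continuousAt
  have c2 : ContinuousAt (fun y : V => Bm p ((nrm d)⁻¹ • y)) (R0 *ᵥ d) := by
    have : ContinuousAt (fun q : V => Bm p q) ((fun y : V => (nrm d)⁻¹ • y) (R0 *ᵥ d)) :=
      Bm_contAt hps
    exact ContinuousAt.comp (f := fun y : V => (nrm d)⁻¹ • y) this c1
  have c3 : ContinuousAt (fun y : V => Bm p ((nrm d)⁻¹ • y) * R0) (R0 *ᵥ d) := by
    have hm : Continuous fun A : M3 => A * R0 := continuous_id.matrix_mul continuous_const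
    exact ContinuousAt.comp (g := fun A : M3 => A * R0)
      (f := fun y : V => Bm p ((nrm d)⁻¹ • y)) hm.continuousAt c2
  have e3 : (fun y : V => Bm p ((nrm d)⁻¹ • y) * R0) (R0 *ᵥ d) = R0 := by
    show Bm p ((nrm d)⁻¹ • (R0 *ᵥ d)) * R0 = R0
    rw [← hp, Bm_self, one_mul]
  have ev1 : ∀ᶠ y in 𝓝 (R0 *ᵥ d), Bm p ((nrm d)⁻¹ • y) * R0 ∈ U :=
    c3.eventually_mem (by
      have e4 : Bm p ((nrm d)⁻¹ • (R0 *ᵥ d)) * R0 = R0 := e3
      rw [e4]
      exact hU.mem_nhds h0)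
  have c4 : Continuous fun y : V => 1 + p ⬝ᵥ ((nrm d)⁻¹ • y) := by fun_prop
  have ev2 : ∀ᶠ y in 𝓝 (R0 *ᵥ d), 1 + p ⬝ᵥ ((nrm d)⁻¹ • y) ≠ 0 := by
    apply c4.continuousAt.eventually_ne
    show 1 + p ⬝ᵥ ((nrm d)⁻¹ • (R0 *ᵥ d)) ≠ 0
    rw [← hp, hp1]
    norm_num
  obtain ⟨δ, hδ, hball⟩ := Metric.eventually_nhds_iff.mp (ev1.and ev2)
  refine ⟨δ ^ 2, by positivity, ?_⟩
  intro y hy hlt
  have hdist : dist y (R0 *ᵥ d) < δ := by
    rw [dist_eq_norm]
    refine lt_of_le_of_lt (norm_le_nrm _) ?_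
    rw [← nrm_sq] at hlt
    exact lt_of_pow_lt_pow_left₀ 2 hδ.le hlt
  obtain ⟨hU1, hne⟩ := hball hdist
  have hny : nrm y = nrm d := by
    unfold nrm
    rw [hy]
  have hy00 : y ≠ 0 := by
    rintro rfl
    have h2 : nrm (0 : V) = 0 := by simp [nrm]
    rw [hny] at h2
    exact hr.ne' h2
  have hqs : (nrm d)⁻¹ • y ∈ sph := by
    have := proj_sph hy00
    rwa [proj, hny] at this
  have hB := Bm_SO3 hps hqs hne
  have hfin := hK _ hU1 (SO3_mul hB hR0)
  have e4 : (Bm p ((nrm d)⁻¹ • y) * R0) *ᵥ d = y := by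
    rw [← Matrix.mulVec_mulVec]
    have e5 : R0 *ᵥ d = nrm d • p := by
      rw [hp, smul_smul, mul_inv_cancel₀ hr.ne', one_smul]
    rw [e5, Matrix.mulVec_smul, Bm_mulVec hps hqs hne, smul_smul, mul_inv_cancel₀ hr.ne', one_smul]
  rw [e4] at hfin
  exact hfin

/-- **B17** -/
theorem goalB17 : G_B17 := by
  intro K c d U R0 hd hU h0 hR0 hK
  have H := fun i => one_i K c (d i) U R0 (hd i) hU h0 hR0 (fun R h1 h2 => hK R h1 h2 i)
  choose ε hε hy using H
  refine ⟨min (min (ε 0) (ε 1)) (min (ε 2) (ε 3)), ?_, ?_⟩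
  · exact lt_min (lt_min (hε 0) (hε 1)) (lt_min (hε 2) (hε 3))
  · intro i y h1 h2
    refine hy i y h1 (lt_of_lt_of_le h2 ?_)
    fin_cases i
    · exact (min_le_left _ _).trans (min_le_left _ _)
    · exact (min_le_left _ _).trans (min_le_right _ _)
    · exact (min_le_right _ _).trans (min_le_left _ _)
    · exact (min_le_right _ _).trans (min_le_right _ _)

end Pool.Agent.Helper78.SP
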